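import Pool.Agent.Lib.MP_2ea600_lc.Full

/-!
# Few subpowers imply short pp-definitions
-/

namespace Pool.Agent.Results.MP_2ea600_lc.FewSubpowers

open Pool.Agent.Lib.MP2ea600

/-- Every constraint language `Γ` (a finite set of relations of finite arities) on a finite set `A`
that has few subpowers has short pp-definitions. -/
theorem result {A : Type} [Finite A] (Γ : Set (FinRel A)) (hΓ : Γ.Finite)
    (h : HasFewSubpowers Γ) : HasShortPPDefinitions Γ :=
  full hΓ h

end Pool.Agent.Results.MP_2ea600_lc.FewSubpowers
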